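import Mathlib

/-! Every stable matching mechanism can be safely manipulated once three agents are known. -/

namespace Pool.Agent.X225.Ra

/-- Strict linear orders; `rel x y` means that `x` is preferred to `y`. -/
structure Pref (A : Type) where
  rel : A → A → Prop
  irrefl : ∀ x, ¬ rel x x
  trans : ∀ x y z, rel x y → rel y z → rel x z
  total : ∀ x y, x ≠ y → rel x y ∨ rel y x

/-- Preference profiles of the men `M` and the women `W`; `none` means being unmatched. -/
structure Profile (M W : Type) where
  men : M → Pref (Option W)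
  women : W → Pref (Option M)

/-- Matchings. -/
structure Matching (M W : Type) where
  m : M → Option W
  w : W → Option M
  cons : ∀ a b, m a = some b ↔ w b = some a

variable {M W : Type}

/-- Stability: nobody prefers being unmatched, and there is no blocking pair. -/
def Stable (P : Profile M W) (μ : Matching M W) : Prop :=
  (∀ a, ¬ (P.men a).rel none (μ.m a)) ∧ (∀ b, ¬ (P.women b).rel none (μ.w b)) ∧
    ∀ a b, ¬ ((P.men a).rel (some b) (μ.m a) ∧ (P.women b).rel (some a) (μ.w b))

/-- Mechanisms. -/
abbrev Mech (M W : Type) := Profile M W → Matching M W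

/-- Stable matching mechanisms. -/
def IsStable (F : Mech M W) : Prop := ∀ P, Stable P (F P)

open Classical in
/-- Change the report of the man `a`. -/
noncomputable def Profile.setMan (P : Profile M W) (a : M) (s : Pref (Option W)) : Profile M W :=
  { P with men := Function.update P.men a s }

open Classical in
/-- Change the report of the woman `b`. -/
noncomputable def Profile.setWoman (P : Profile M W) (b : W) (s : Pref (Option M)) :
    Profile M W :=
  { P with women := Function.update P.women b s }

/-- The profiles `P` and `Q` contain the same reports of the agents in `K`. -/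
def AgreeOn (K : Set (M ⊕ W)) (P Q : Profile M W) : Prop :=
  (∀ a, Sum.inl a ∈ K → P.men a = Q.men a) ∧ ∀ b, Sum.inr b ∈ K → P.women b = Q.women b

/-- Some man has a safe and profitable report when the reports of `k` other agents are known. -/
def ManipMan (F : Mech M W) (k : ℕ) : Prop :=
  ∃ (a : M) (K : Finset (M ⊕ W)) (Q : Profile M W) (s : Pref (Option W)),
    K.card = k ∧ Sum.inl a ∉ K ∧ s ≠ Q.men a ∧
      (∀ P, AgreeOn (insert (Sum.inl a) ↑K) P Q →
        ¬ (Q.men a).rel ((F P).m a) ((F (P.setMan a s)).m a)) ∧
      ∃ P, AgreeOn (insert (Sum.inl a) ↑K) P Q ∧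
        (Q.men a).rel ((F (P.setMan a s)).m a) ((F P).m a)

/-- Some woman has a safe and profitable report when the reports of `k` other agents are
known. -/
def ManipWoman (F : Mech M W) (k : ℕ) : Prop :=
  ∃ (b : W) (K : Finset (M ⊕ W)) (Q : Profile M W) (s : Pref (Option M)),
    K.card = k ∧ Sum.inr b ∉ K ∧ s ≠ Q.women b ∧
      (∀ P, AgreeOn (insert (Sum.inr b) ↑K) P Q →
        ¬ (Q.women b).rel ((F P).w b) ((F (P.setWoman b s)).w b)) ∧
      ∃ P, AgreeOn (insert (Sum.inr b) ↑K) P Q ∧
        (Q.women b).rel ((F (P.setWoman b s)).w b) ((F P).w b)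

/-- `F` is `k`-known-agents safely manipulable. -/
def Manip (F : Mech M W) (k : ℕ) : Prop := ManipMan F k ∨ ManipWoman F k

/-- The RAT-degree: the least `k < n` for which `F` is `k`-known-agents safely manipulable, and
`n` if there is none; `n` is the number of agents. -/
noncomputable def ratDegree [Fintype M] [Fintype W] (F : Mech M W) : ℕ :=
  sInf ({k | k < Fintype.card M + Fintype.card W ∧ Manip F k} ∪
    {Fintype.card M + Fintype.card W})

lemma Pref.asymm {A : Type} (p : Pref A) {x y : A} (h : p.rel x y) : ¬ p.rel y x :=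
  fun h' => p.irrefl x (p.trans x y x h h')

section

variable {B : Type} [Fintype B]

open Classical in
/-- A rank function with `x` first, `y` second and `none` at most third. -/
noncomputable def rk (x y z : Option B) : ℕ :=
  if z = x then 0 else if z = y then 1 else if z = none then 2
  else 3 + (Fintype.equivFin (Option B) z : ℕ)

lemma rk_inj (x y : Option B) : Function.Injective (rk x y) := by
  intro a b h
  unfold rk at h
  split_ifs at h with h1 h2 h3 h4 h5 h6 h7 h8 h9 <;> first | omega | simp_all
  apply (Fintype.equivFin (Option B)).injective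
  exact Fin.ext (by omega)

/-- The preference relation of `rk`. -/
noncomputable def pr (x y : Option B) : Pref (Option B) where
  rel a b := rk x y a < rk x y b
  irrefl _ := lt_irrefl _
  trans _ _ _ := lt_trans
  total a b h := by
    rcases lt_trichotomy (rk x y a) (rk x y b) with h1 | h1 | h1
    · exact Or.inl h1
    · exact absurd (rk_inj x y h1) h
    · exact Or.inr h1

lemma pr_first {x y z : Option B} (h : z ≠ x) : (pr x y).rel x z := by
  show rk x y x < rk x y z
  unfold rk
  rw [if_pos rfl, if_neg h]
  split_ifs <;> omega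

lemma pr_second {x y z : Option B} (hxy : y ≠ x) (h : z ≠ x) (h' : z ≠ y) :
    (pr x y).rel y z := by
  show rk x y y < rk x y z
  unfold rk
  rw [if_neg hxy, if_pos rfl, if_neg h, if_neg h']
  split_ifs <;> omega

end

section

variable [Fintype M] [Fintype W] {m1 m2 : M} {w1 w2 : W}

/-- The two possible outcomes for the true preferences. -/
lemma truth (hm : m1 ≠ m2) (hw : w1 ≠ w2) {P : Profile M W} {μ : Matching M W}
    (h1 : P.men m1 = pr (some w1) (some w2)) (h3 : P.women w1 = pr (some m2) (some m1))
    (h4 : P.women w2 = pr (some m1) (some m2)) (hS : Stable P μ) :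
    μ.w w1 = some m1 ∨ μ.m m1 = some w2 := by
  obtain ⟨s1, s2, s3⟩ := hS
  by_cases c1 : μ.m m1 = some w1
  · exact Or.inl ((μ.cons _ _).1 c1)
  by_cases c2 : μ.m m1 = some w2
  · exact Or.inr c2
  exfalso
  refine s3 m1 w2 ⟨?_, ?_⟩
  · rw [h1]
    exact pr_second (fun h => hw (Option.some_inj.1 h).symm) c1 c2
  · rw [h4]
    exact pr_first fun h => c2 ((μ.cons _ _).2 h)

/-- The outcome if the first woman truncates her preferences. -/
lemma truncW (hm : m1 ≠ m2) (hw : w1 ≠ w2) {P : Profile M W} {μ : Matching M W}
    (h1 : P.men m1 = pr (some w1) (some w2)) (h2 : P.men m2 = pr (some w2) (some w1))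
    (h3 : P.women w1 = pr (some m2) none) (h4 : P.women w2 = pr (some m1) (some m2))
    (hS : Stable P μ) : μ.w w1 = some m2 := by
  obtain ⟨s1, s2, s3⟩ := hS
  by_contra hc
  have c0 : μ.w w1 = none := by
    by_contra hc'
    refine s2 w1 ?_
    rw [h3]
    exact pr_second (by simp) hc hc'
  have c1 : μ.m m1 ≠ some w1 := fun h => by
    have := (μ.cons _ _).1 h
    rw [c0] at this
    exact absurd this (by simp)
  have c2 : μ.m m1 = some w2 := by
    by_contra hc'
    refine s3 m1 w2 ⟨?_, ?_⟩
    · rw [h1]; exact pr_second (fun h => hw (Option.some_inj.1 h).symm) c1 hc'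
    · rw [h4]; exact pr_first fun h => hc' ((μ.cons _ _).2 h)
  have c3 : μ.m m2 ≠ some w2 := fun h => by
    have e1 := (μ.cons _ _).1 h
    have e2 := (μ.cons _ _).1 c2
    rw [e1] at e2
    exact hm (Option.some_inj.1 e2).symm
  have c4 : μ.m m2 ≠ some w1 := fun h => hc ((μ.cons _ _).1 h)
  refine s3 m2 w1 ⟨?_, ?_⟩
  · rw [h2]; exact pr_second (fun h => hw (Option.some_inj.1 h)) c3 c4
  · rw [h3, c0]; exact pr_first (by simp)

/-- The outcome if the first man truncates his preferences. -/
lemma truncM (hm : m1 ≠ m2) (hw : w1 ≠ w2) {P : Profile M W} {μ : Matching M W}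
    (h1 : P.men m1 = pr (some w1) none) (h2 : P.men m2 = pr (some w2) (some w1))
    (h3 : P.women w1 = pr (some m2) (some m1)) (h4 : P.women w2 = pr (some m1) (some m2))
    (hS : Stable P μ) : μ.m m1 = some w1 := by
  obtain ⟨s1, s2, s3⟩ := hS
  by_contra hc
  have c0 : μ.m m1 = none := by
    by_contra hc'
    refine s1 m1 ?_
    rw [h1]
    exact pr_second (by simp) hc hc'
  have c1 : μ.w w1 ≠ some m1 := fun h => hc ((μ.cons _ _).2 h)
  have c1' : μ.w w2 ≠ some m1 := fun h => by
    have := (μ.cons _ _).2 h
    rw [c0] at this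
    exact absurd this (by simp)
  by_cases c2 : μ.m m2 = some w2
  · have c3 : μ.w w1 ≠ some m2 := fun h => by
      have e1 := (μ.cons _ _).2 h
      rw [c2] at e1
      exact hw (Option.some_inj.1 e1).symm
    refine s3 m1 w1 ⟨?_, ?_⟩
    · rw [h1, c0]; exact pr_first (by simp)
    · rw [h3]; exact pr_second (fun h => hm (Option.some_inj.1 h)) c3 c1
  · refine s3 m2 w2 ⟨?_, ?_⟩
    · rw [h2]; exact pr_first c2
    · rw [h4]
      exact pr_second (fun h => hm (Option.some_inj.1 h).symm) c1'
        (fun h => c2 ((μ.cons _ _).2 h))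

theorem manip_three (hM : 2 ≤ Fintype.card M) (hW : 2 ≤ Fintype.card W) (F : Mech M W)
    (hF : IsStable F) : Manip F 3 := by
  classical
  obtain ⟨m1, m2, hm⟩ := Fintype.exists_pair_of_one_lt_card (α := M) (by omega)
  obtain ⟨w1, w2, hw⟩ := Fintype.exists_pair_of_one_lt_card (α := W) (by omega)
  let Q : Profile M W :=
    { men := fun a => if a = m1 then pr (some w1) (some w2) else pr (some w2) (some w1)
      women := fun b => if b = w1 then pr (some m2) (some m1) else pr (some m1) (some m2) }
  have q1 : Q.men m1 = pr (some w1) (some w2) := by simp [Q]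
  have q2 : Q.men m2 = pr (some w2) (some w1) := by simp [Q, hm.symm]
  have q3 : Q.women w1 = pr (some m2) (some m1) := by simp [Q]
  have q4 : Q.women w2 = pr (some m1) (some m2) := by simp [Q, hw.symm]
  rcases truth hm hw q1 q3 q4 (hF Q) with h | h
  · -- the first woman manipulates
    right
    refine ⟨w1, {Sum.inl m1, Sum.inl m2, Sum.inr w2}, Q, pr (some m2) none, ?_, ?_, ?_, ?_,
      Q, ⟨fun _ _ => rfl, fun _ _ => rfl⟩, ?_⟩
    · rw [Finset.card_eq_three]
      exact ⟨_, _, _, by simpa using hm, by simp, by simp, rfl⟩
    · simpa using hw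
    · rw [q3]
      intro he
      have e1 : (pr (some m2) none : Pref (Option M)).rel none (some m1) :=
        pr_second (by simp) (fun h => hm (Option.some_inj.1 h)) (by simp)
      rw [he] at e1
      exact Pref.asymm _ e1 (pr_second (fun h => hm (Option.some_inj.1 h)) (by simp) (by simp))
    · intro P hP
      have e := truncW (P := P.setWoman w1 (pr (some m2) none)) (μ := F _) hm hw
        ((hP.1 m1 (by simp)).trans q1) ((hP.1 m2 (by simp)).trans q2)
        (by simp [Profile.setWoman])
        (by simpa [Profile.setWoman, hw.symm] using (hP.2 w2 (by simp)).trans q4) (hF _)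
      rw [e, q3]
      by_cases c : (F P).w w1 = some m2
      · rw [c]; exact Pref.irrefl _ _
      · exact Pref.asymm _ (pr_first c)
    · have e := truncW (P := Q.setWoman w1 (pr (some m2) none)) (μ := F _) hm hw
        q1 q2 (by simp [Profile.setWoman])
        (by simpa [Profile.setWoman, hw.symm] using q4) (hF _)
      rw [e, q3, h]
      exact pr_first fun h => hm (Option.some_inj.1 h)
  · -- the first man manipulates
    left
    refine ⟨m1, {Sum.inl m2, Sum.inr w1, Sum.inr w2}, Q, pr (some w1) none, ?_, ?_, ?_, ?_,
      Q, ⟨fun _ _ => rfl, fun _ _ => rfl⟩, ?_⟩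
    · rw [Finset.card_eq_three]
      exact ⟨_, _, _, by simp, by simp, by simpa using hw, rfl⟩
    · simpa using hm
    · rw [q1]
      intro he
      have e1 : (pr (some w1) none : Pref (Option W)).rel none (some w2) :=
        pr_second (by simp) (fun h => hw (Option.some_inj.1 h).symm) (by simp)
      rw [he] at e1
      exact Pref.asymm _ e1
        (pr_second (fun h => hw (Option.some_inj.1 h).symm) (by simp) (by simp))
    · intro P hP
      have e := truncM (P := P.setMan m1 (pr (some w1) none)) (μ := F _) hm hw
        (by simp [Profile.setMan])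
        (by simpa [Profile.setMan, hm.symm] using (hP.1 m2 (by simp)).trans q2)
        ((hP.2 w1 (by simp)).trans q3) ((hP.2 w2 (by simp)).trans q4) (hF _)
      rw [e, q1]
      by_cases c : (F P).m m1 = some w1
      · rw [c]; exact Pref.irrefl _ _
      · exact Pref.asymm _ (pr_first c)
    · have e := truncM (P := Q.setMan m1 (pr (some w1) none)) (μ := F _) hm hw
        (by simp [Profile.setMan]) (by simpa [Profile.setMan, hm.symm] using q2) q3 q4 (hF _)
      rw [e, q1, h]
      exact pr_first fun h => hw (Option.some_inj.1 h).symm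

end

theorem ratDegree_le [Fintype M] [Fintype W] (hM : 2 ≤ Fintype.card M)
    (hW : 2 ≤ Fintype.card W) (F : Mech M W) (hF : IsStable F) : ratDegree F ≤ 3 :=
  Nat.sInf_le (Or.inl ⟨by omega, manip_three hM hW F hF⟩)

end Pool.Agent.X225.Ra
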